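import Mathlib
import Pool.Agent.H.MP_e8899b_al.Core

set_option autoImplicit false

namespace Pool.Agent.Results.MP_e8899b_al.Counter

open Pool.Agent.H.MP_e8899b_al

def vsub (W : Set (FreeGroup ℕ)) (G : Type) [Group G] : Subgroup G :=
  Subgroup.closure {u | ∃ w ∈ W, ∃ f : FreeGroup ℕ →* G, f w = u}

instance (W : Set (FreeGroup ℕ)) (G : Type) [Group G] : (vsub W G).Normal := by
  refine ⟨fun x hx g => ?_⟩
  have h : vsub W G ≤ (vsub W G).comap (MulAut.conj g).toMonoidHom := by
    refine (Subgroup.closure_le _).2 ?_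
    rintro u ⟨w, hw, f, rfl⟩
    exact Subgroup.subset_closure ⟨w, hw, (MulAut.conj g).toMonoidHom.comp f, rfl⟩
  exact h hx

abbrev RelFree (W : Set (FreeGroup ℕ)) (m : ℕ) : Type :=
  FreeGroup (Fin m) ⧸ vsub W (FreeGroup (Fin m))

def laws (G : Type) [Group G] : Set (FreeGroup ℕ) := {w | ∀ f : FreeGroup ℕ →* G, f w = 1}

theorem vsub_le {W : Set (FreeGroup ℕ)} {G : Type} [Group G] {N : Subgroup G} :
    vsub W G ≤ N ↔ ∀ w ∈ W, ∀ f : FreeGroup ℕ →* G, f w ∈ N := by
  unfold vsub
  rw [Subgroup.closure_le]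
  exact ⟨fun h w hw f => h ⟨w, hw, f, rfl⟩, fun h _ ⟨w, hw, f, e⟩ => e ▸ h w hw f⟩

def lft {A : Type} [Group A] {m : ℕ} (g : Fin m → A) : RelFree (laws A) m →* A :=
  QuotientGroup.lift _ (FreeGroup.lift g) (by
    change vsub _ _ ≤ (FreeGroup.lift g).ker
    exact vsub_le.2 fun w hw f => hw ((FreeGroup.lift g).comp f))

theorem lft_of {A : Type} [Group A] {m : ℕ} (g : Fin m → A) (i : Fin m) :
    lft g (QuotientGroup.mk (FreeGroup.of i)) = g i := by
  simp [lft]

theorem law_map {A : Type} [Group A] {m : ℕ} (k : FreeGroup (Fin m))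
    (hk : ∀ h : FreeGroup (Fin m) →* A, h k = 1) : FreeGroup.map Fin.val k ∈ laws A :=
  fun f => hk (f.comp (FreeGroup.map Fin.val))

theorem val_map {G : Type} [Group G] {m : ℕ} (ψ : FreeGroup (Fin m) →* G) :
    ∃ f : FreeGroup ℕ →* G, ∀ k, f (FreeGroup.map Fin.val k) = ψ k := by
  refine ⟨FreeGroup.lift fun n => if h : n < m then ψ (FreeGroup.of ⟨n, h⟩) else 1, fun k => ?_⟩
  have h2 : (FreeGroup.lift fun n => if h : n < m then ψ (FreeGroup.of ⟨n, h⟩) else 1).comp
      (FreeGroup.map Fin.val) = ψ := by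
    ext i; simp
  exact DFunLike.congr_fun h2 k

theorem sep {A : Type} [Group A] {m : ℕ} (x : RelFree (laws A) m)
    (hx : ∀ g : Fin m → A, lft g x = 1) : x = 1 := by
  obtain ⟨x, rfl⟩ := QuotientGroup.mk_surjective x
  rw [QuotientGroup.eq_one_iff]
  obtain ⟨f, hf⟩ := val_map (MonoidHom.id (FreeGroup (Fin m)))
  refine Subgroup.subset_closure ⟨_, law_map x fun h => ?_, f, hf x⟩
  have h1 : FreeGroup.lift (fun i => h (FreeGroup.of i)) = h := by ext i : 1; simp
  rw [← h1]
  exact hx _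

theorem laws_le (W : Set (FreeGroup ℕ)) (m : ℕ) : W ⊆ laws (RelFree W m) := by
  intro w hw f
  choose s hs using fun i => QuotientGroup.mk_surjective (f (FreeGroup.of i))
  have h1 : (QuotientGroup.mk' _).comp (FreeGroup.lift s) = f := by
    ext i : 1; simp [hs]
  rw [← h1]
  exact (QuotientGroup.eq_one_iff _).2 (Subgroup.subset_closure ⟨w, hw, _, rfl⟩)

theorem fin_supp {G : Type} [Group G] (w : FreeGroup ℕ) : ∃ n, ∀ f g : FreeGroup ℕ →* G,
    (∀ i < n, f (FreeGroup.of i) = g (FreeGroup.of i)) → f w = g w := by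
  induction w using FreeGroup.induction_on with
  | C1 => exact ⟨0, by simp⟩
  | of i => exact ⟨i + 1, fun f g h => h i (by omega)⟩
  | inv_of i ih => exact ⟨i + 1, fun f g h => by rw [map_inv, map_inv, h i (by omega)]⟩
  | mul x y hx hy =>
    obtain ⟨a, ha⟩ := hx
    obtain ⟨b, hb⟩ := hy
    exact ⟨a + b, fun f g h => by
      rw [map_mul, map_mul, ha f g fun i hi => h i (by omega), hb f g fun i hi => h i (by omega)]⟩

theorem two_gen (w : FreeGroup ℕ) (hw : w ∈ laws (RelFree (laws H) 2)) (h : FreeGroup ℕ →* H)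
    (a b : H) (hab : ∀ i, h (FreeGroup.of i) ∈ Subgroup.closure ({a, b} : Set H)) : h w = 1 := by
  have hle : Subgroup.closure ({a, b} : Set H) ≤ (lft ![a, b]).range := by
    rw [Subgroup.closure_le]
    rintro x (rfl | rfl)
    · exact ⟨_, lft_of _ 0⟩
    · exact ⟨_, lft_of _ 1⟩
  choose s hs using fun i => hle (hab i)
  have h1 : (lft ![a, b]).comp (FreeGroup.lift s) = h := by ext i : 1; simp [hs]
  rw [← h1, MonoidHom.comp_apply, hw, map_one]

theorem fwd (G : Type) [Group G] (hG : vsub (laws H) G ≤ Subgroup.center G) :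
    vsub (laws (RelFree (laws H) 2)) G ≤ Subgroup.center G := by
  rw [vsub_le] at hG ⊢
  intro w hw f
  rw [Subgroup.mem_center_iff]
  intro g
  obtain ⟨n, hn⟩ := fin_supp (G := G) w
  let j : FreeGroup ℕ →* FreeGroup (Fin (n + 1)) :=
    FreeGroup.lift fun i => if h : i < n then FreeGroup.of ⟨i, by omega⟩ else 1
  let ψ : FreeGroup (Fin (n + 1)) →* G :=
    FreeGroup.lift fun i => if i.val < n then f (FreeGroup.of i.val) else g
  have e1 : ψ (j w) = f w := hn (ψ.comp j) f fun i hi => by simp [ψ, j, hi]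
  have e2 : ψ (FreeGroup.of (Fin.last n)) = g := by simp [ψ]
  have hc := core ψ.rangeRestrict ψ.rangeRestrict_surjective (fun k hk => by
    obtain ⟨f', hf'⟩ := val_map ψ
    have := hG _ (law_map k hk) f'
    rw [hf'] at this
    rw [Subgroup.mem_center_iff] at this ⊢
    intro x
    exact Subtype.ext (this x)) (j w) (fun h a b hab => two_gen w hw (h.comp j) a b fun i => by
      by_cases hi : i < n
      · have : (h.comp j) (FreeGroup.of i) = h (FreeGroup.of ⟨i, by omega⟩) := by simp [j, hi]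
        rw [this]; exact hab _
      · have : (h.comp j) (FreeGroup.of i) = 1 := by simp [j, hi]
        rw [this]; exact one_mem _)
  have e3 := congrArg Subtype.val
    (Subgroup.mem_center_iff.1 hc (ψ.rangeRestrict (FreeGroup.of (Fin.last n))))
  rw [← e1, ← e2]
  exact e3

def cw {G : Type} [Group G] (p r : G) : G := p * r ^ 3 * p⁻¹ * (r ^ 3)⁻¹

def w0 {G : Type} [Group G] (p q r : G) : G := cw p r * cw q r * (cw p r)⁻¹ * (cw q r)⁻¹

theorem map_w0 {G K : Type} [Group G] [Group K] (f : G →* K) (p q r : G) :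
    f (w0 p q r) = w0 (f p) (f q) (f r) := by simp [w0, cw]

theorem cw_e : ∀ p r : H, (cw p r).e = 0 := by decide +kernel

theorem w0_law : w0 (FreeGroup.of 0) (FreeGroup.of 1) (FreeGroup.of 2) ∈
    laws (RelFree (laws H) 2) := by
  intro f
  refine sep _ fun g => ?_
  have hr : ∀ S : Subgroup H, g 0 ∈ S → g 1 ∈ S → ∀ x, lft g x ∈ S := by
    intro S h0 h1 x
    obtain ⟨x, rfl⟩ := QuotientGroup.mk_surjective x
    induction x using FreeGroup.induction_on with
    | C1 => rw [QuotientGroup.mk_one, map_one]; exact one_mem _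
    | of i => rw [lft_of]; fin_cases i <;> assumption
    | inv_of i ih => rw [QuotientGroup.mk_inv, map_inv]; exact inv_mem ih
    | mul x y hx hy => rw [QuotientGroup.mk_mul, map_mul]; exact mul_mem hx hy
  rw [map_w0, map_w0]
  rcases sub_exists (g 0) (g 1) with ⟨h0, h1⟩ | ⟨α, β, c, hne, h0, h1⟩
  · have h2 := hr eps.ker (congrArg Multiplicative.ofAdd h0) (congrArg Multiplicative.ofAdd h1)
      (f (FreeGroup.of 2))
    have h3 := cen_cube (lft g (f (FreeGroup.of 2))) (congrArg Multiplicative.toAdd h2)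
    simp [w0, cw, h3]
  · have h2 := hr (Sub α β c) h0 h1
    have h3 : ∀ p r, fn α β (cw (lft g p) (lft g r)) = 0 := by
      intro p r
      have h4 : cw (lft g p) (lft g r) ∈ Sub α β c :=
        mul_mem (mul_mem (mul_mem (h2 p) (pow_mem (h2 r) 3)) (inv_mem (h2 p)))
          (inv_mem (pow_mem (h2 r) 3))
      have h5 : fn α β (cw (lft g p) (lft g r)) =
        if (cw (lft g p) (lft g r)).e = 0 then 0 else c := h4
      rwa [if_pos (cw_e _ _)] at h5
    unfold w0
    rw [sub_comm α β hne _ _ (cw_e _ _) (cw_e _ _) (h3 _ _) (h3 _ _)]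
    group

theorem w0_ne : w0 gX gY gT ≠ 1 := by decide +kernel

theorem result : ∃ (W : Set (FreeGroup ℕ)) (k : ℕ), 1 ≤ k ∧
    (∀ (G : Type) [Group G], vsub W G ≤ Subgroup.center G ↔
      vsub (laws (RelFree W k)) G ≤ Subgroup.center G) ∧
    ¬ ∀ (G : Type) [Group G], vsub W G = ⊥ ↔ vsub (laws (RelFree W k)) G = ⊥ := by
  refine ⟨laws H, 2, by norm_num, fun G _ => ⟨fwd G, fun h => ?_⟩, fun h => ?_⟩
  · rw [vsub_le] at h ⊢
    exact fun w hw f => h w (laws_le _ _ hw) f
  · have h1 := (h H).1 (eq_bot_iff.2 (vsub_le.2 fun w hw f => hw f))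
    have h2 := vsub_le.1 h1.le _ w0_law
      (FreeGroup.lift fun i => if i = 0 then gX else if i = 1 then gY else gT)
    rw [Subgroup.mem_bot, map_w0] at h2
    apply w0_ne
    simpa using h2

end Pool.Agent.Results.MP_e8899b_al.Counter
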